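import Pool.Agent.helper6.LD.Defs

/-!
Local density theorem, final assembly (module F): the statement in terms of the short interval
count, the monotonicity and the subadditivity of the zero count.
-/

set_option autoImplicit false

open Complex Metric

namespace Pool.Agent.helper6.LD

/-- the set which is counted -/
def h97Set (lam M σ T H : ℝ) : Set ℂ :=
  {ρ : ℂ | σ ≤ ρ.re ∧ T < ρ.im ∧ ρ.im ≤ T + H ∧ riemannZeta ρ = 0 ∧ Exposed lam M ρ}

theorem h97_re_lt {ρ : ℂ} (h : riemannZeta ρ = 0) : ρ.re < 1 := by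
  by_contra hc
  exact riemannZeta_ne_zero_of_one_le_re (not_lt.mp hc) h

theorem h97_bounded (lam M σ T H : ℝ) : Bornology.IsBounded (h97Set lam M σ T H) := by
  have h : Bornology.IsBounded ((Set.Icc σ 1) ×ℂ (Set.Icc T (T + H))) :=
    (Metric.isBounded_Icc _ _).reProdIm (Metric.isBounded_Icc _ _)
  refine h.subset ?_
  rintro ρ ⟨h1, h2, h3, h4, -⟩
  rw [Complex.mem_reProdIm]
  exact ⟨⟨h1, (h97_re_lt h4).le⟩, ⟨h2.le, h3⟩⟩

theorem h97_geom {g : ℝ} (hg : 0 < g) (J : ℕ) :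
    ∑ j ∈ Finset.range (J + 1), (2 : ℝ) ^ (-(g * ((J : ℝ) - j))) ≤ (1 - (2 : ℝ) ^ (-g))⁻¹ := by
  have h0 : (0 : ℝ) < (2 : ℝ) ^ (-g) := Real.rpow_pos_of_pos two_pos _
  have h1 : (2 : ℝ) ^ (-g) < 1 := Real.rpow_lt_one_of_one_lt_of_neg one_lt_two (by linarith)
  have e : ∑ j ∈ Finset.range (J + 1), (2 : ℝ) ^ (-(g * ((J : ℝ) - j))) =
      ∑ j ∈ Finset.range (J + 1), ((2 : ℝ) ^ (-g)) ^ j := by
    rw [← Finset.sum_range_reflect]
    refine Finset.sum_congr rfl fun j hj => ?_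
    have hj' : j ≤ J := Nat.lt_succ_iff.mp (Finset.mem_range.mp hj)
    have : ((J + 1 - 1 - j : ℕ) : ℝ) = (J : ℝ) - j := by
      rw [Nat.add_sub_cancel, Nat.cast_sub hj']
    rw [this, ← Real.rpow_natCast, ← Real.rpow_mul two_pos.le]
    congr 1
    ring
  rw [e, ← tsum_geometric_of_lt_one h0.le h1]
  exact (summable_geometric_of_lt_one h0.le h1).sum_le_tsum _ (fun i _ => by positivity)

theorem h97_pow_near {x : ℝ} (hx : 1 < x) : ∃ n : ℕ, (2 : ℝ) ^ n < x ∧ x ≤ 2 ^ (n + 1) := by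
  have hex : ∃ n : ℕ, x ≤ (2 : ℝ) ^ n := by
    obtain ⟨n, hn⟩ := pow_unbounded_of_one_lt x one_lt_two
    exact ⟨n, hn.le⟩
  classical
  have h1 := Nat.find_spec hex
  have h0 : Nat.find hex ≠ 0 := by
    intro h
    rw [h] at h1
    norm_num at h1
    linarith
  obtain ⟨m, hm⟩ := Nat.exists_eq_succ_of_ne_zero h0
  refine ⟨m, ?_, ?_⟩
  · exact not_le.mp (Nat.find_min hex (by omega))
  · rw [hm] at h1
    exact h1

/-- long intervals -/
theorem h97_long {lam M g B T₁ : ℝ} (hg : 0 < g) (hB : 0 < B) (hT₁ : 3 ≤ T₁)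
    (hunion : ∀ (F : Finset ℕ) (S : ℕ → Set ℂ),
      (∀ i ∈ F, Bornology.IsBounded (S i)) → zc (⋃ i ∈ F, S i) ≤ ∑ i ∈ F, zc (S i))
    (hmono : ∀ {S S' : Set ℂ}, S ⊆ S' → Bornology.IsBounded S' → zc S ≤ zc S')
    (hcount : ∀ σ T H : ℝ, 1 / 2 ≤ σ → σ ≤ 1 → T₁ ≤ T → 1 ≤ H → H ≤ T →
      (zc (h97Set lam M σ T H) : ℝ) ≤ B * H ^ (2 * (1 - σ)) * T ^ g)
    {σ T H : ℝ} (hσ : 1 / 2 ≤ σ) (hσ1 : σ ≤ 1) (hT : T₁ ≤ T) (hH : 1 ≤ H) :
    (zc (h97Set lam M σ T H) : ℝ) ≤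
      (2 * B * (1 - (2 : ℝ) ^ (-g))⁻¹) * H ^ (2 * (1 - σ)) * (T + H) ^ g := by
  have hTpos : 0 < T := by linarith
  have hHpos : 0 < H := by linarith
  have h0 : (0 : ℝ) < (2 : ℝ) ^ (-g) := Real.rpow_pos_of_pos two_pos _
  have h1 : (2 : ℝ) ^ (-g) < 1 := Real.rpow_lt_one_of_one_lt_of_neg one_lt_two (by linarith)
  have hC1 : 1 ≤ (1 - (2 : ℝ) ^ (-g))⁻¹ := (one_le_inv₀ (by linarith)).mpr (by linarith)
  have hHe : 0 < H ^ (2 * (1 - σ)) := Real.rpow_pos_of_pos hHpos _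
  rcases le_or_gt H T with hHT | hHT
  · have hT' : T ^ g ≤ (T + H) ^ g := Real.rpow_le_rpow hTpos.le (by linarith) hg.le
    calc (zc (h97Set lam M σ T H) : ℝ) ≤ B * H ^ (2 * (1 - σ)) * T ^ g :=
          hcount σ T H hσ hσ1 hT hH hHT
      _ ≤ B * H ^ (2 * (1 - σ)) * (T + H) ^ g := by gcongr
      _ ≤ (2 * B * (1 - (2 : ℝ) ^ (-g))⁻¹) * H ^ (2 * (1 - σ)) * (T + H) ^ g := by
          have : B ≤ 2 * B * (1 - (2 : ℝ) ^ (-g))⁻¹ := by nlinarith
          gcongr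
  · obtain ⟨J, hJ1, hJ2⟩ := exists_nat_pow_near
      (x := (T + H) / T) (y := (2 : ℝ)) (by rw [le_div_iff₀ hTpos]; linarith) one_lt_two
    rw [le_div_iff₀ hTpos] at hJ1
    rw [div_lt_iff₀ hTpos] at hJ2
    set a : ℝ := 2 * (1 - σ) + g with ha
    have hga : g ≤ a := by rw [ha]; linarith
    have hapos : 0 < a := lt_of_lt_of_le hg hga
    have hsub : h97Set lam M σ T H ⊆
        ⋃ j ∈ Finset.range (J + 1), h97Set lam M σ (2 ^ j * T) (2 ^ j * T) := by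
      rintro ρ ⟨q1, q2, q3, q4, q5⟩
      obtain ⟨j, hj1, hj2⟩ := h97_pow_near (x := ρ.im / T) (by rw [lt_div_iff₀ hTpos]; linarith)
      rw [lt_div_iff₀ hTpos] at hj1
      rw [div_le_iff₀ hTpos] at hj2
      have hjJ : j < J + 1 := by
        by_contra hcon
        have : (2 : ℝ) ^ (J + 1) ≤ 2 ^ j := pow_le_pow_right₀ one_le_two (not_lt.mp hcon)
        nlinarith
      simp only [Set.mem_iUnion]
      refine ⟨j, Finset.mem_range.mpr hjJ, q1, hj1, ?_, q4, q5⟩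
      rw [pow_succ] at hj2
      linarith
    have hb : ∀ i ∈ Finset.range (J + 1),
        Bornology.IsBounded (h97Set lam M σ (2 ^ i * T) (2 ^ i * T)) := fun i _ =>
      h97_bounded _ _ _ _ _
    have hbU : Bornology.IsBounded
        (⋃ j ∈ Finset.range (J + 1), h97Set lam M σ (2 ^ j * T) (2 ^ j * T)) := by
      rw [Bornology.isBounded_biUnion_finset]
      exact hb
    have hN : (zc (h97Set lam M σ T H) : ℝ) ≤
        ∑ j ∈ Finset.range (J + 1), (zc (h97Set lam M σ (2 ^ j * T) (2 ^ j * T)) : ℝ) := by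
      exact_mod_cast (hmono hsub hbU).trans (hunion _ _ hb)
    have hterm : ∀ j ∈ Finset.range (J + 1),
        (zc (h97Set lam M σ (2 ^ j * T) (2 ^ j * T)) : ℝ) ≤
          B * (T + H) ^ a * (2 : ℝ) ^ (-(g * ((J : ℝ) - j))) := by
      intro j hj
      have hjJ : j ≤ J := Nat.lt_succ_iff.mp (Finset.mem_range.mp hj)
      have h2j : (1 : ℝ) ≤ 2 ^ j := one_le_pow₀ one_le_two
      have hX : 0 < 2 ^ j * T := by positivity
      have hXT : T ≤ 2 ^ j * T := by nlinarith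
      have h3 := hcount σ (2 ^ j * T) (2 ^ j * T) hσ hσ1 (hT.trans hXT) (by linarith) le_rfl
      have h4 : (2 ^ j * T) ^ (2 * (1 - σ)) * (2 ^ j * T) ^ g = (2 ^ j * T) ^ a := by
        rw [← Real.rpow_add hX]
      have h5 : 2 ^ j * T = (2 ^ J * T) * (2 : ℝ) ^ (-((J : ℝ) - j)) := by
        have : (2 : ℝ) ^ j = (2 : ℝ) ^ J * (2 : ℝ) ^ (-((J : ℝ) - j)) := by
          rw [← Real.rpow_natCast, ← Real.rpow_natCast, ← Real.rpow_add two_pos]
          congr 1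
          ring
        rw [this]
        ring
      have hy : (0 : ℝ) < (2 : ℝ) ^ (-((J : ℝ) - j)) := Real.rpow_pos_of_pos two_pos _
      have hY : (0 : ℝ) < 2 ^ J * T := by positivity
      have h6 : (2 ^ j * T) ^ a ≤ (T + H) ^ a * (2 : ℝ) ^ (-(g * ((J : ℝ) - j))) := by
        rw [h5, Real.mul_rpow hY.le hy.le]
        apply mul_le_mul
        · exact Real.rpow_le_rpow hY.le (by linarith) hapos.le
        · rw [← Real.rpow_mul two_pos.le]
          apply Real.rpow_le_rpow_of_exponent_le one_le_two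
          have : (0 : ℝ) ≤ (J : ℝ) - j := by
            rw [sub_nonneg]
            exact_mod_cast hjJ
          nlinarith
        · positivity
        · exact Real.rpow_nonneg (by linarith) _
      calc (zc (h97Set lam M σ (2 ^ j * T) (2 ^ j * T)) : ℝ)
          ≤ B * (2 ^ j * T) ^ (2 * (1 - σ)) * (2 ^ j * T) ^ g := h3
        _ = B * (2 ^ j * T) ^ a := by rw [mul_assoc, h4]
        _ ≤ B * ((T + H) ^ a * (2 : ℝ) ^ (-(g * ((J : ℝ) - j)))) := by gcongr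
        _ = _ := by ring
    have hsum : ∑ j ∈ Finset.range (J + 1), (zc (h97Set lam M σ (2 ^ j * T) (2 ^ j * T)) : ℝ) ≤
        B * (T + H) ^ a * (1 - (2 : ℝ) ^ (-g))⁻¹ := by
      refine (Finset.sum_le_sum hterm).trans ?_
      rw [← Finset.mul_sum]
      have : 0 ≤ B * (T + H) ^ a := mul_nonneg hB.le (Real.rpow_nonneg (by linarith) _)
      exact mul_le_mul_of_nonneg_left (h97_geom hg J) this
    have hTH : (T + H) ^ a ≤ 2 * H ^ (2 * (1 - σ)) * (T + H) ^ g := by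
      rw [ha, Real.rpow_add (by linarith)]
      have h7 : (T + H) ^ (2 * (1 - σ)) ≤ 2 * H ^ (2 * (1 - σ)) := by
        calc (T + H) ^ (2 * (1 - σ)) ≤ (2 * H) ^ (2 * (1 - σ)) :=
              Real.rpow_le_rpow (by linarith) (by linarith) (by linarith)
          _ = 2 ^ (2 * (1 - σ)) * H ^ (2 * (1 - σ)) := Real.mul_rpow two_pos.le hHpos.le
          _ ≤ 2 ^ (1 : ℝ) * H ^ (2 * (1 - σ)) := by
              gcongr
              · exact one_le_two
              · linarith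
          _ = 2 * H ^ (2 * (1 - σ)) := by rw [Real.rpow_one]
      have h8 : 0 ≤ (T + H) ^ g := Real.rpow_nonneg (by linarith) _
      exact mul_le_mul_of_nonneg_right h7 h8
    calc (zc (h97Set lam M σ T H) : ℝ) ≤ B * (T + H) ^ a * (1 - (2 : ℝ) ^ (-g))⁻¹ := hN.trans hsum
      _ ≤ B * (2 * H ^ (2 * (1 - σ)) * (T + H) ^ g) * (1 - (2 : ℝ) ^ (-g))⁻¹ := by gcongr
      _ = _ := by ring

/-- the final statement from its ingredients -/
theorem h97_final {lam M : ℝ} (hlam : 0 < lam) (hlam1 : lam ≤ 1)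
    (hunion : ∀ (F : Finset ℕ) (S : ℕ → Set ℂ),
      (∀ i ∈ F, Bornology.IsBounded (S i)) → zc (⋃ i ∈ F, S i) ≤ ∑ i ∈ F, zc (S i))
    (hmono : ∀ {S S' : Set ℂ}, S ⊆ S' → Bornology.IsBounded S' → zc S ≤ zc S')
    (hcount : ∃ B T₁ : ℝ, 0 < B ∧ 3 ≤ T₁ ∧ ∀ σ T H : ℝ, 1 / 2 ≤ σ → σ ≤ 1 → T₁ ≤ T →
      1 ≤ H → H ≤ T →
      (zc {ρ : ℂ | σ ≤ ρ.re ∧ T < ρ.im ∧ ρ.im ≤ T + H ∧ riemannZeta ρ = 0 ∧ Exposed lam M ρ} : ℝ)
        ≤ B * H ^ (2 * (1 - σ)) * T ^ (20 * lam * Real.log (Real.exp 1 / lam))) :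
    ∃ B : ℝ, 0 < B ∧ ∀ σ T H : ℝ, 1 / 2 ≤ σ → σ ≤ 1 → 0 ≤ T → 1 ≤ H →
      (zc {ρ : ℂ | σ ≤ ρ.re ∧ T < ρ.im ∧ ρ.im ≤ T + H ∧ riemannZeta ρ = 0 ∧ Exposed lam M ρ} : ℝ)
        ≤ B * H ^ (2 * (1 - σ)) * (T + H) ^ (20 * lam * Real.log (Real.exp 1 / lam)) := by
  obtain ⟨B, T₁, hB, hT₁, hcount⟩ := hcount
  set g : ℝ := 20 * lam * Real.log (Real.exp 1 / lam) with hgdef
  have hlog : 1 ≤ Real.log (Real.exp 1 / lam) := by
    rw [Real.log_div (Real.exp_ne_zero _) hlam.ne', Real.log_exp]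
    have := Real.log_nonpos hlam.le hlam1
    linarith
  have hg : 0 < g := by positivity
  have h0 : (0 : ℝ) < (2 : ℝ) ^ (-g) := Real.rpow_pos_of_pos two_pos _
  have h1 : (2 : ℝ) ^ (-g) < 1 := Real.rpow_lt_one_of_one_lt_of_neg one_lt_two (by linarith)
  have hinv : 0 < (1 - (2 : ℝ) ^ (-g))⁻¹ := inv_pos.mpr (by linarith)
  have hlong : ∀ σ T H : ℝ, 1 / 2 ≤ σ → σ ≤ 1 → T₁ ≤ T → 1 ≤ H →
      (zc (h97Set lam M σ T H) : ℝ) ≤
        (2 * B * (1 - (2 : ℝ) ^ (-g))⁻¹) * H ^ (2 * (1 - σ)) * (T + H) ^ g :=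
    fun σ T H hσ hσ1 hT hH => h97_long hg hB hT₁ hunion hmono hcount hσ hσ1 hT hH
  set B₁ : ℝ := 2 * B * (1 - (2 : ℝ) ^ (-g))⁻¹ with hB₁
  have hB₁pos : 0 < B₁ := by positivity
  set c₀ : ℝ := (zc (h97Set lam M (1 / 2) 0 T₁) : ℝ) with hc₀
  have hc₀' : 0 ≤ c₀ := Nat.cast_nonneg _
  set K : ℝ := (T₁ + 1) ^ g with hK
  have hK1 : 1 ≤ K := Real.one_le_rpow (by linarith) hg.le
  refine ⟨c₀ + B₁ * K, by positivity, fun σ T H hσ hσ1 hT hH => ?_⟩
  change (zc (h97Set lam M σ T H) : ℝ) ≤ _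
  have hHpos : 0 < H := by linarith
  have hHe : 1 ≤ H ^ (2 * (1 - σ)) := Real.one_le_rpow hH (by linarith)
  have hTHg : 1 ≤ (T + H) ^ g := Real.one_le_rpow (by linarith) hg.le
  rcases le_or_gt T₁ T with hTT | hTT
  · refine (hlong σ T H hσ hσ1 hTT hH).trans ?_
    have : B₁ ≤ c₀ + B₁ * K := by nlinarith
    gcongr
  · -- the part below `T₁` and the part above
    have hsub : h97Set lam M σ T H ⊆ ⋃ i ∈ Finset.range 2,
        (fun i : ℕ => if i = 0 then h97Set lam M (1 / 2) 0 T₁ else h97Set lam M σ T₁ H) i := by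
      rintro ρ ⟨q1, q2, q3, q4, q5⟩
      simp only [Set.mem_iUnion]
      rcases le_or_gt ρ.im T₁ with h | h
      · refine ⟨0, by simp, ?_⟩
        simp only [↓reduceIte]
        exact ⟨hσ.trans q1, by linarith, by linarith, q4, q5⟩
      · refine ⟨1, by simp, ?_⟩
        simp only [one_ne_zero, ↓reduceIte]
        exact ⟨q1, h, by linarith, q4, q5⟩
    have hb : ∀ i ∈ Finset.range 2, Bornology.IsBounded
        ((fun i : ℕ => if i = 0 then h97Set lam M (1 / 2) 0 T₁ else h97Set lam M σ T₁ H) i) := by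
      intro i _
      by_cases hi : i = 0
      · simp only [hi, ↓reduceIte]
        exact h97_bounded _ _ _ _ _
      · simp only [hi, ↓reduceIte]
        exact h97_bounded _ _ _ _ _
    have hbU := (Bornology.isBounded_biUnion_finset (Finset.range 2)).mpr hb
    have hN := (hmono hsub hbU).trans (hunion _ _ hb)
    rw [Finset.sum_range_succ, Finset.sum_range_one] at hN
    simp only [↓reduceIte, one_ne_zero] at hN
    have hN' : (zc (h97Set lam M σ T H) : ℝ) ≤ c₀ + (zc (h97Set lam M σ T₁ H) : ℝ) := by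
      rw [hc₀]
      exact_mod_cast hN
    have h2 := hlong σ T₁ H hσ hσ1 le_rfl hH
    have h3 : (T₁ + H) ^ g ≤ K * (T + H) ^ g := by
      rw [hK, ← Real.mul_rpow (by linarith) (by linarith)]
      apply Real.rpow_le_rpow (by linarith) _ hg.le
      nlinarith
    have h4 : (1 : ℝ) ≤ H ^ (2 * (1 - σ)) * (T + H) ^ g := by nlinarith
    calc (zc (h97Set lam M σ T H) : ℝ) ≤ c₀ + B₁ * H ^ (2 * (1 - σ)) * (T₁ + H) ^ g := by linarith
      _ ≤ c₀ * (H ^ (2 * (1 - σ)) * (T + H) ^ g) +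
          B₁ * H ^ (2 * (1 - σ)) * (K * (T + H) ^ g) := by
          gcongr
          exact le_mul_of_one_le_right hc₀' h4
      _ = _ := by ring

end Pool.Agent.helper6.LD
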